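import Mathlib
import Pool.Agent.H.MP_c7f7e8_an.B

namespace Pool.Agent.Results.MP_c7f7e8_an.NotGdelta

/-- The rational vector space with a countable basis. -/
abbrev V : Type := ℕ →₀ ℚ

def IsPseudonorm (μ : V → ℝ) : Prop :=
  (∀ v, 0 ≤ μ v) ∧ (∀ u v, μ (u + v) ≤ μ u + μ v) ∧ ∀ (q : ℚ) v, μ (q • v) = |(q : ℝ)| * μ v

/-- The Banach space coded by μ, with the images of the basis vectors, has the property Q. -/
def Has (Q : (X : Type) → [NormedAddCommGroup X] → [NormedSpace ℝ X] → (ℕ → X) → Prop)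
    (μ : V → ℝ) : Prop :=
  ∃ (X : Type) (_ : NormedAddCommGroup X) (_ : NormedSpace ℝ X) (j : V →+ X),
    CompleteSpace X ∧ DenseRange j ∧ (∀ v, ‖j v‖ = μ v) ∧ Q X fun n => j (Finsupp.single n 1)

abbrev Pinf : Type := {μ : V → ℝ // IsPseudonorm μ ∧ Has (fun X _ _ _ => ¬ FiniteDimensional ℝ X) μ}

abbrev Bn : Type := {μ : V → ℝ // IsPseudonorm μ ∧ Has (fun _ _ _ e => LinearIndependent ℝ e) μ}

def Gurarii (G : Type) [NormedAddCommGroup G] [NormedSpace ℝ G] : Prop :=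
  ∀ ε > 0, ∀ (A : Submodule ℝ G) (B : Type) [NormedAddCommGroup B] [NormedSpace ℝ B]
    [FiniteDimensional ℝ B] (g : A →ₗᵢ[ℝ] B), ∃ f : B →ₗ[ℝ] G,
      (∀ b, ‖b‖ ≤ (1 + ε) * ‖f b‖ ∧ ‖f b‖ ≤ (1 + ε) * ‖b‖) ∧ ∀ a : A, ‖f (g a) - a‖ ≤ ε * ‖a‖

def Iso (G : Type) [NormedAddCommGroup G] [NormedSpace ℝ G] (μ : V → ℝ) : Prop :=
  Has (fun X _ _ _ => Nonempty (X ≃L[ℝ] G)) μ

open Pool.Agent.H.MP_c7f7e8_an

theorem result (G : Type) [NormedAddCommGroup G] [NormedSpace ℝ G] [CompleteSpace G]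
    [TopologicalSpace.SeparableSpace G] (hG : Gurarii G) :
    ¬ IsGδ {μ : Pinf | Iso G μ.1} ∧ ¬ IsGδ {μ : Bn | Iso G μ.1} := by
  obtain ⟨y, ψ, c, li, hd, h, h1, h2⟩ := system (infDim hG)
  let μ : (ℕ → Bool) → V → ℝ := fun σ v => ‖JJ (zz y ψ σ) v‖
  have cμ : Continuous μ := continuous_pi (zz_cont y ψ)
  have p : ∀ σ, IsPseudonorm (μ σ) := fun σ => ⟨fun v => norm_nonneg _, fun u v => by
    simp only [μ, map_add, norm_add_le], fun q v => by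
    simp only [μ]
    erw [map_ratCast_smul (JJ (zz y ψ σ)) ℚ ℝ q v, norm_smul]; rfl⟩
  have has : ∀ σ Q, (Q (XX (zz y ψ σ)) fun n => jj (zz y ψ σ) (Finsupp.single n 1)) →
      Has Q (μ σ) := fun σ Q hQ =>
    ⟨XX (zz y ψ σ), _, _, jj _, inferInstance, jj_dense _, fun _ => rfl, hQ⟩
  have iso : {σ | Iso G (μ σ)} = {σ : ℕ → Bool | {n | σ n = true}.Finite} := by
    ext σ
    refine ⟨fun ⟨X, _, _, j, _, j1, j2, ⟨e⟩⟩ => by_contra fun hσ =>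
      inf_not hG h h1 h2 hσ j j1 j2 e, fun hσ =>
      has σ (fun X _ _ _ => Nonempty (X ≃L[ℝ] G)) (fin_iso hd h hσ)⟩
  have l := fun σ => jj_li (zz_li y ψ li σ)
  let f1 : (ℕ → Bool) → Pinf := fun σ => ⟨μ σ, p σ, has σ (fun X _ _ _ => ¬ FiniteDimensional ℝ X)
    fun _ => not_finite_iff_infinite.2 inferInstance (l σ).finite⟩
  let f2 : (ℕ → Bool) → Bn := fun σ => ⟨μ σ, p σ, has σ (fun _ _ _ e => LinearIndependent ℝ e) (l σ)⟩
  refine ⟨fun hh => notG ?_, fun hh => notG ?_⟩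
  · rw [← iso]
    exact hh.preimage (f := f1) (cμ.subtype_mk _)
  · rw [← iso]
    exact hh.preimage (f := f2) (cμ.subtype_mk _)

end Pool.Agent.Results.MP_c7f7e8_an.NotGdelta
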